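import Pool.Agent.H950.ON.St

/-!
Project ON (helper950), task O2 (helper333): the configurations are the colourings.
-/

set_option autoImplicit false

namespace Pool.Agent.H333.ONbij

open Pool.Agent.X136.ON Pool.Agent.H950.ON Finset

variable (D : TD)

theorem mem_E' {e : Ed} : e ∈ D.E ↔ (D.lo ≤ (s1 e).2 ∧ (s1 e).2 ≤ D.hi) ∧
    (D.lo ≤ (s2 e).2 ∧ (s2 e).2 ≤ D.hi) ∧
    ¬ (s1 e ∈ D.W ∧ s2 e ∈ D.W) ∧ ¬ (s1 e ∈ D.Z ∧ s2 e ∈ D.Z) := D.mem_E

theorem mem_W {i j : ℤ} : ((i, j) : Hx) ∈ D.W ↔ i ≤ D.w j := Iff.rfl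

theorem mem_Z {i j : ℤ} : ((i, j) : Hx) ∈ D.Z ↔ D.z j ≤ i := Iff.rfl

theorem rows (e : Ed) : (s1 e).2 ≤ (s2 e).2 ∧ (s2 e).2 ≤ (s1 e).2 + 1 := by
  obtain ⟨i, j, k⟩ := e
  cases k <;> simp [s1, s2]

theorem not_E_W {e : Ed} (h1 : s1 e ∈ D.W) (h2 : s2 e ∈ D.W) : e ∉ D.E := fun h =>
  ((mem_E' D).1 h).2.2.1 ⟨h1, h2⟩

theorem not_E_Z {e : Ed} (h1 : s1 e ∈ D.Z) (h2 : s2 e ∈ D.Z) : e ∉ D.E := fun h =>
  ((mem_E' D).1 h).2.2.2 ⟨h1, h2⟩

/-- the inner hexagons -/
theorem inn_eq : inn D.E = D.ins := by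
  ext ⟨i, j⟩
  rw [mem_inn, D.mem_ins, mem_W, mem_Z]
  constructor
  · intro hb
    constructor
    · intro hW
      have h1 : ((i - 1, j, Dir.A) : Ed) ∈ bd (i, j) := mem_bd.2 (Or.inr (by simp [s2]))
      refine not_E_W D ?_ ?_ (hb h1)
      · show i - 1 ≤ D.w j
        omega
      · show i - 1 + 1 ≤ D.w j
        omega
    · intro hZ
      have h1 : ((i, j, Dir.A) : Ed) ∈ bd (i, j) := mem_bd.2 (Or.inl rfl)
      refine not_E_Z D ?_ ?_ (hb h1)
      · show D.z j ≤ i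
        omega
      · show D.z j ≤ i + 1
        omega
  · rintro ⟨h1, h2⟩ e he
    have hj1 : D.lo < j := by
      by_contra hc
      have := D.bot j (by omega)
      omega
    have hj2 : j < D.hi := by
      by_contra hc
      have := D.top j (by omega)
      omega
    have hr := rows e
    rw [mem_bd] at he
    rw [mem_E']
    rcases he with he | he
    · rw [he] at hr ⊢
      simp only at hr ⊢
      refine ⟨⟨by omega, by omega⟩, ⟨by omega, by omega⟩, fun h => h1 h.1, fun h => h2 h.1⟩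
    · rw [he] at hr ⊢
      simp only at hr ⊢
      refine ⟨⟨by omega, by omega⟩, ⟨by omega, by omega⟩, fun h => h1 h.2, fun h => h2 h.2⟩

/-! ### The outer hexagons are connected -/

/-- joined outside of the domain -/
def RR (f g : Hx) : Prop :=
  Relation.ReflTransGen (fun f g => ∃ e, e ∉ D.E ∧ ((s1 e = f ∧ s2 e = g) ∨ (s1 e = g ∧ s2 e = f))) f g

variable {D}

theorem RR.trans {f g h : Hx} (h1 : RR D f g) (h2 : RR D g h) : RR D f h :=
  Relation.ReflTransGen.trans h1 h2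

theorem RR.symm {f g : Hx} (h : RR D f g) : RR D g f := by
  unfold RR at *
  induction h with
  | refl => exact Relation.ReflTransGen.refl
  | tail _ h ih =>
    obtain ⟨e, he, h⟩ := h
    exact Relation.ReflTransGen.head ⟨e, he, h.symm⟩ ih

theorem RR.edge {e : Ed} (he : e ∉ D.E) : RR D (s1 e) (s2 e) :=
  Relation.ReflTransGen.single ⟨e, he, Or.inl ⟨rfl, rfl⟩⟩

theorem w_left (n : ℕ) {i j : ℤ} (h : i ≤ D.w j) : RR D (i, j) (i - n, j) := by
  induction n with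
  | zero =>
    simp only [Nat.cast_zero, sub_zero]
    exact Relation.ReflTransGen.refl
  | succ n ih =>
    refine ih.trans ?_
    have h1 : RR D (i - (n + 1 : ℕ), j) (i - (n + 1 : ℕ) + 1, j) := by
      refine RR.edge (e := (i - (n + 1 : ℕ), j, Dir.A)) (not_E_W D ?_ ?_)
      · show i - (n + 1 : ℕ) ≤ D.w j
        push_cast
        omega
      · show i - (n + 1 : ℕ) + 1 ≤ D.w j
        push_cast
        omega
    have e1 : i - ((n + 1 : ℕ) : ℤ) + 1 = i - n := by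
      push_cast
      ring
    rw [e1] at h1
    exact h1.symm

theorem w_left' {i i' j : ℤ} (h : i ≤ D.w j) (hi : i' ≤ i) : RR D (i, j) (i', j) := by
  have h1 := w_left (i - i').toNat h
  rwa [show i - ((i - i').toNat : ℤ) = i' by omega] at h1

theorem w_row {i i' j : ℤ} (h : i ≤ D.w j) (h' : i' ≤ D.w j) : RR D (i, j) (i', j) :=
  (w_left' h (min_le_left i i')).trans (w_left' h' (min_le_right i i')).symm

theorem w_up {i j : ℤ} (h : i ≤ D.w j) (h' : i ≤ D.w (j + 1)) : RR D (i, j) (i, j + 1) :=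
  RR.edge (e := (i, j, Dir.B)) (not_E_W D h h')

theorem w_con (n : ℕ) {i j i' : ℤ} (h : i ≤ D.w j) (h' : i' ≤ D.w (j + n)) :
    RR D (i, j) (i', j + n) := by
  induction n generalizing i' with
  | zero =>
    simp only [Nat.cast_zero, add_zero] at h' ⊢
    exact w_row h h'
  | succ n ih =>
    have e1 : j + ((n + 1 : ℕ) : ℤ) = j + n + 1 := by
      push_cast
      ring
    rw [e1] at h' ⊢
    have h1 : min i' (D.w (j + n)) ≤ D.w (j + n) := min_le_right _ _
    have h2 : min i' (D.w (j + n)) ≤ D.w (j + n + 1) := (min_le_left _ _).trans h'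
    exact ((ih h1).trans (w_up h1 h2)).trans (w_row h2 h')

theorem w_all {i j i' j' : ℤ} (h : i ≤ D.w j) (h' : i' ≤ D.w j') : RR D (i, j) (i', j') := by
  rcases le_total j j' with hj | hj
  · have h1 := w_con (D := D) (j' - j).toNat h (i' := i')
    rw [show j + ((j' - j).toNat : ℤ) = j' by omega] at h1
    exact h1 h'
  · have h1 := w_con (D := D) (j - j').toNat h' (i' := i)
    rw [show j' + ((j - j').toNat : ℤ) = j by omega] at h1
    exact (h1 h).symm

theorem z_right (n : ℕ) {i j : ℤ} (h : D.z j ≤ i) : RR D (i, j) (i + n, j) := by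
  induction n with
  | zero =>
    simp only [Nat.cast_zero, add_zero]
    exact Relation.ReflTransGen.refl
  | succ n ih =>
    refine ih.trans ?_
    have h1 : RR D (i + n, j) (i + n + 1, j) := by
      refine RR.edge (e := (i + n, j, Dir.A)) (not_E_Z D ?_ ?_)
      · show D.z j ≤ i + n
        omega
      · show D.z j ≤ i + n + 1
        omega
    have e1 : i + ((n + 1 : ℕ) : ℤ) = i + n + 1 := by
      push_cast
      ring
    rw [e1]
    exact h1

theorem z_right' {i i' j : ℤ} (h : D.z j ≤ i) (hi : i ≤ i') : RR D (i, j) (i', j) := by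
  have h1 := z_right (i' - i).toNat h
  rwa [show i + ((i' - i).toNat : ℤ) = i' by omega] at h1

theorem z_row {i i' j : ℤ} (h : D.z j ≤ i) (h' : D.z j ≤ i') : RR D (i, j) (i', j) :=
  (z_right' h (le_max_left i i')).trans (z_right' h' (le_max_right i i')).symm

theorem z_up {i j : ℤ} (h : D.z j ≤ i) (h' : D.z (j + 1) ≤ i) : RR D (i, j) (i, j + 1) :=
  RR.edge (e := (i, j, Dir.B)) (not_E_Z D h h')

theorem z_con (n : ℕ) {i j i' : ℤ} (h : D.z j ≤ i) (h' : D.z (j + n) ≤ i') :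
    RR D (i, j) (i', j + n) := by
  induction n generalizing i' with
  | zero =>
    simp only [Nat.cast_zero, add_zero] at h' ⊢
    exact z_row h h'
  | succ n ih =>
    have e1 : j + ((n + 1 : ℕ) : ℤ) = j + n + 1 := by
      push_cast
      ring
    rw [e1] at h' ⊢
    have h1 : D.z (j + n) ≤ max i' (D.z (j + n)) := le_max_right _ _
    have h2 : D.z (j + n + 1) ≤ max i' (D.z (j + n)) := h'.trans (le_max_left _ _)
    exact ((ih h1).trans (z_up h1 h2)).trans (z_row h2 h')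

theorem z_all {i j i' j' : ℤ} (h : D.z j ≤ i) (h' : D.z j' ≤ i') : RR D (i, j) (i', j') := by
  rcases le_total j j' with hj | hj
  · have h1 := z_con (D := D) (j' - j).toNat h (i' := i')
    rw [show j + ((j' - j).toNat : ℤ) = j' by omega] at h1
    exact h1 h'
  · have h1 := z_con (D := D) (j - j').toNat h' (i' := i)
    rw [show j' + ((j - j').toNat : ℤ) = j by omega] at h1
    exact (h1 h).symm

theorem link : RR D (D.w (D.hi + 1), D.hi + 1) (D.w (D.hi + 1) + 1, D.hi + 1) := by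
  refine RR.edge (e := (D.w (D.hi + 1), D.hi + 1, Dir.A)) fun h => ?_
  have h1 := ((mem_E' D).1 h).1.2
  change D.hi + 1 ≤ D.hi at h1
  omega

theorem to_base {i j : ℤ} (h : i ≤ D.w j ∨ D.z j ≤ i) :
    RR D (i, j) (D.w (D.hi + 1), D.hi + 1) := by
  rcases h with h | h
  · exact w_all h le_rfl
  · have h1 : D.z (D.hi + 1) ≤ D.w (D.hi + 1) + 1 := by
      rw [D.top (D.hi + 1) (by omega)]
    exact (z_all h h1).trans link.symm

variable (D)

theorem simply : Simply D.E := by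
  have key : ∀ h : Hx, ¬ bd h ⊆ D.E → RR D h (D.w (D.hi + 1), D.hi + 1) := by
    rintro ⟨i, j⟩ hb
    rw [← mem_inn, inn_eq, D.mem_ins, mem_W, mem_Z] at hb
    exact to_base (by tauto)
  intro h h' hb hb'
  exact (key h hb).trans (key h' hb').symm

/-! ### The boundary arc -/

theorem mem_om0 {e : Ed} : e ∈ D.om ∅ ↔ (D.lo ≤ (s1 e).2 ∧ (s1 e).2 ≤ D.hi) ∧
    (D.lo ≤ (s2 e).2 ∧ (s2 e).2 ≤ D.hi) ∧
    ¬ ((s1 e).1 ≤ D.w (s1 e).2 ↔ (s2 e).1 ≤ D.w (s2 e).2) := by
  classical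
  have hp : ∀ h : Hx, h ∈ D.pl ∅ ↔ h.1 ≤ D.w h.2 := by
    intro h
    unfold TD.pl
    rw [coe_empty, Set.union_empty]
    rfl
  unfold TD.om
  rw [mem_filter, mem_E', hp, hp]
  constructor
  · rintro ⟨⟨h1, h2, -, -⟩, h3⟩
    exact ⟨h1, h2, h3⟩
  · rintro ⟨h1, h2, h3⟩
    refine ⟨⟨h1, h2, ?_, ?_⟩, h3⟩
    · rintro ⟨h4, h5⟩
      exact h3 ⟨fun _ => h5, fun _ => h4⟩
    · rintro ⟨h4, h5⟩
      have h4' : D.z (s1 e).2 ≤ (s1 e).1 := h4
      have h5' : D.z (s2 e).2 ≤ (s2 e).1 := h5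
      have h6 := D.lt (s1 e).2
      have h7 := D.lt (s2 e).2
      exact h3 ⟨fun h => by omega, fun h => by omega⟩

theorem om_sub (F : Finset Hx) : D.om F ⊆ D.E := by
  classical
  unfold TD.om
  exact filter_subset _ _

theorem deg_if (ω : Finset Ed) (v : Vx) (P Q R : Prop) [Decidable P] [Decidable Q] [Decidable R]
    (h1 : ea v ∈ ω ↔ P) (h2 : eb v ∈ ω ↔ Q) (h3 : ec v ∈ ω ↔ R) : deg ω v =
    (if P then 1 else 0) + (if Q then 1 else 0) + (if R then 1 else 0) := by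
  rw [deg_eq]
  have h : ∀ (e : Ed) (S : Prop) [Decidable S], (e ∈ ω ↔ S) → (ch ω e).toNat = if S then 1 else 0 := by
    intro e S _ hS
    by_cases he : S
    · rw [if_pos he, ch_iff.2 (hS.2 he)]
      rfl
    · rw [if_neg he, ch_false.2 fun h => he (hS.1 h)]
      rfl
  rw [h _ _ h1, h _ _ h2, h _ _ h3]

theorem deg_odd {ω : Finset Ed} {v : Vx} {P Q R : Prop}
    (h1 : ea v ∈ ω ↔ P) (h2 : eb v ∈ ω ↔ Q) (h3 : ec v ∈ ω ↔ R) (h : P ∧ ¬ Q ∧ ¬ R) :
    deg ω v = 1 := by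
  classical
  rw [deg_if _ _ _ _ _ h1 h2 h3, if_pos h.1, if_neg h.2.1, if_neg h.2.2]

theorem deg_even {ω : Finset Ed} {v : Vx} {P Q R : Prop}
    (h1 : ea v ∈ ω ↔ P) (h2 : eb v ∈ ω ↔ Q) (h3 : ec v ∈ ω ↔ R)
    (h : (¬ P ∧ ¬ Q ∧ ¬ R) ∨ (P ∧ Q ∧ ¬ R) ∨ (P ∧ ¬ Q ∧ R) ∨ (¬ P ∧ Q ∧ R)) :
    deg ω v = 0 ∨ deg ω v = 2 := by
  classical
  rw [deg_if _ _ _ _ _ h1 h2 h3]
  rcases h with ⟨g1, g2, g3⟩ | ⟨g1, g2, g3⟩ | ⟨g1, g2, g3⟩ | ⟨g1, g2, g3⟩
  · rw [if_neg g1, if_neg g2, if_neg g3]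
    exact Or.inl rfl
  · rw [if_pos g1, if_pos g2, if_neg g3]
    exact Or.inr rfl
  · rw [if_pos g1, if_neg g2, if_pos g3]
    exact Or.inr rfl
  · rw [if_neg g1, if_pos g2, if_pos g3]
    exact Or.inr rfl

theorem om_conf : D.om ∅ ∈ Conf D.E D.a D.b := by
  have hlh := D.lohi
  rw [mem_Conf]
  refine ⟨om_sub D ∅, ?_, ?_, ?_⟩
  · refine deg_odd (mem_om0 D) (mem_om0 D) (mem_om0 D) ?_
    simp only [TD.a, ea, eb, ec, s1, s2]
    omega
  · refine deg_odd (mem_om0 D) (mem_om0 D) (mem_om0 D) ?_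
    simp only [TD.b, ea, eb, ec, s1, s2, sub_add_cancel]
    omega
  · rintro ⟨i, j, s⟩ ha hb
    refine deg_even (mem_om0 D) (mem_om0 D) (mem_om0 D) ?_
    cases s
    · simp only [ea, eb, ec, s1, s2]
      by_cases hj : j = D.hi
      · have hi : i ≠ D.w D.hi := by
          intro hi
          apply ha
          unfold TD.a
          rw [hi, hj]
        rw [hj]
        omega
      · omega
    · simp only [ea, eb, ec, s1, s2]
      by_cases hj : j = D.lo - 1
      · have hi : i ≠ D.w D.lo := by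
          intro hi
          apply hb
          unfold TD.b
          rw [hi, hj]
        rw [hj]
        simp only [sub_add_cancel]
        omega
      · omega

theorem bdry_a : Bdry D.E D.a := by
  refine ⟨(D.w D.hi, D.hi, Dir.B), fun h => ?_, Or.inl rfl⟩
  have h1 := ((mem_E' D).1 h).2.1.2
  change D.hi + 1 ≤ D.hi at h1
  omega

theorem bdry_b : Bdry D.E D.b := by
  refine ⟨(D.w D.lo, D.lo - 1, Dir.C), fun h => ?_, Or.inr rfl⟩
  have h1 := ((mem_E' D).1 h).1.1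
  change D.lo ≤ D.lo - 1 at h1
  omega

theorem cfg_om {F : Finset Hx} (hF : F ⊆ D.ins) : cfg D.E (D.om ∅) F = D.om F := by
  classical
  have hp : ∀ h : Hx, h ∈ D.pl ∅ ↔ h ∈ D.W := by
    intro h
    unfold TD.pl
    rw [coe_empty, Set.union_empty]
  have hp2 : ∀ h : Hx, h ∈ D.pl F ↔ h ∈ D.W ∨ h ∈ F := fun h => Iff.rfl
  have hd : ∀ h : Hx, h ∈ F → h ∉ D.W := fun h hh => ((D.mem_ins).1 (hF hh)).1
  ext e
  unfold cfg TD.om
  rw [mem_symmDiff, mem_filter, mem_filter, mem_filter, hp, hp, hp2, hp2]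
  have h1 := hd (s1 e)
  have h2 := hd (s2 e)
  tauto

end Pool.Agent.H333.ONbij

namespace Pool.Agent.H333.ONbij

open Pool.Agent.X136.ON Pool.Agent.H950.ON Finset

theorem t_bij : Pool.Agent.H950.ON.S_bij := by
  intro D g
  rw [sum_cfg (simply D) (om_conf D) (bdry_a D) (bdry_b D) g, inn_eq]
  exact sum_congr rfl fun F hF => by rw [cfg_om D (mem_powerset.1 hF)]

end Pool.Agent.H333.ONbij
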